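import Pool.Agent.helper40.TW.SpecG
import Pool.Agent.helper99.TG.SW4A

/-!
# Project TW, block G, row GRO
-/

set_option autoImplicit false

open Complex MeasureTheory Metric
open scoped ComplexConjugate ArithmeticFunction.vonMangoldt

namespace Pool.Agent.TWG

open Pool.Agent.helper74.TG (h99_a h99_G h99_char_sum_le)

theorem GRO_B_le {q : ℕ} [NeZero q] {χ : DirichletCharacter ℂ q} (hχ : χ ≠ 1) (N : ℕ) :
    ‖∑ n ∈ Finset.range N, χ ((n + 1 : ℕ) : ZMod q)‖ ≤ 2 * q := by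
  have hq : 0 < q := Nat.pos_of_ne_zero (NeZero.ne q)
  have hq1 : (1 : ℝ) ≤ q := by exact_mod_cast hq
  have h1 := Finset.sum_range_succ' (fun n : ℕ => χ (n : ZMod q)) N
  have h2 : ∑ n ∈ Finset.range N, χ ((n + 1 : ℕ) : ZMod q) =
      ∑ n ∈ Finset.range (N + 1), χ (n : ZMod q) - χ ((0 : ℕ) : ZMod q) := by
    rw [h1]; ring
  rw [h2]
  refine (norm_sub_le _ _).trans ?_
  have := h99_char_sum_le hχ (N + 1)
  have := χ.norm_le_one ((0 : ℕ) : ZMod q)
  linarith

theorem GRO_abel (b a : ℕ → ℂ) (N : ℕ) :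
    ∑ n ∈ Finset.range N, b n * a n = (∑ n ∈ Finset.range N, b n) * a N +
      ∑ n ∈ Finset.range N, (∑ m ∈ Finset.range (n + 1), b m) * (a n - a (n + 1)) := by
  induction N with
  | zero => simp
  | succ N ih =>
    have h1 : ∑ n ∈ Finset.range (N + 1), b n = ∑ n ∈ Finset.range N, b n + b N := Finset.sum_range_succ _ _
    rw [Finset.sum_range_succ, ih, Finset.sum_range_succ (fun n => (∑ m ∈ Finset.range (n + 1), b m) *
      (a n - a (n + 1))), h1]
    ring

theorem GRO_a_diff {s : ℂ} (hre : 1 / 4 < s.re) (n : ℕ) :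
    ‖h99_a s n - h99_a s (n + 1)‖ ≤ ‖s‖ / ((n : ℝ) + 1) ^ (5 / 4 : ℝ) := by
  have hn0 : (0 : ℝ) ≤ n := Nat.cast_nonneg n
  set a : ℝ := (n : ℝ) + 1 with ha
  have ha1 : 1 ≤ a := by linarith
  have h := norm_image_sub_le_of_norm_deriv_le_segment' (a := a) (b := a + 1)
    (f := fun u : ℝ => Complex.exp (-s * (Real.log u : ℂ)))
    (f' := fun u : ℝ => Complex.exp (-s * (Real.log u : ℂ)) * (-s * ((u⁻¹ : ℝ) : ℂ)))
    (C := ‖s‖ / a ^ (5 / 4 : ℝ))
    (fun y hy => by
      have hy0 : 0 < y := by linarith [hy.1]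
      have h1 : HasDerivAt (fun y : ℝ => (Real.log y : ℂ)) ((y⁻¹ : ℝ) : ℂ) y :=
        (Real.hasDerivAt_log hy0.ne').ofReal_comp
      exact ((h1.const_mul (-s)).cexp).hasDerivWithinAt)
    (fun y hy => by
      have hy0 : 0 < y := by linarith [hy.1]
      have hy1 : 1 ≤ y := ha1.trans hy.1
      have hlog : 0 ≤ Real.log y := Real.log_nonneg hy1
      have hexp : ‖Complex.exp (-s * (Real.log y : ℂ))‖ ≤ y ^ (-(1 / 4) : ℝ) := by
        rw [Complex.norm_exp, Real.rpow_def_of_pos hy0]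
        apply Real.exp_le_exp.2
        rw [Complex.mul_re, Complex.ofReal_re, Complex.ofReal_im, Complex.neg_re]
        nlinarith
      rw [norm_mul, norm_mul, norm_neg, Complex.norm_real,
        Real.norm_of_nonneg (by positivity : 0 ≤ y⁻¹)]
      calc ‖Complex.exp (-s * (Real.log y : ℂ))‖ * (‖s‖ * y⁻¹) ≤
            y ^ (-(1 / 4) : ℝ) * (‖s‖ * y⁻¹) := by gcongr
        _ = ‖s‖ / y ^ (5 / 4 : ℝ) := by
            rw [← Real.rpow_neg_one y, div_eq_mul_inv ‖s‖, ← Real.rpow_neg hy0.le]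
            rw [show (-(5 / 4) : ℝ) = -(1 / 4) + -1 by norm_num, Real.rpow_add hy0]
            ring
        _ ≤ _ := by
            have := hy.1
            gcongr)
    (a + 1) ⟨by linarith, le_rfl⟩
  rw [add_sub_cancel_left, mul_one] at h
  rw [norm_sub_rev]
  have e1 : h99_a s (n + 1) = Complex.exp (-s * (Real.log (a + 1) : ℂ)) := by
    rw [h99_a, ha]; push_cast; rfl
  rw [e1, h99_a]
  exact h

theorem GRO_summable : Summable fun n : ℕ => 1 / ((n : ℝ) + 1) ^ (5 / 4 : ℝ) := by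
  have h := Real.summable_one_div_nat_rpow.2 (show (1 : ℝ) < 5 / 4 by norm_num)
  have h2 := (summable_nat_add_iff 1).2 h
  refine h2.congr fun n => ?_
  push_cast
  ring

theorem GRO_term {q : ℕ} [NeZero q] {χ : DirichletCharacter ℂ q} (hχ : χ ≠ 1) (n : ℕ) {s : ℂ}
    (hs : 1 / 4 < s.re) :
    ‖(∑ m ∈ Finset.range (n + 1), χ ((m + 1 : ℕ) : ZMod q)) * (h99_a s n - h99_a s (n + 1))‖ ≤
      2 * q * ‖s‖ * (1 / ((n : ℝ) + 1) ^ (5 / 4 : ℝ)) := by
  rw [norm_mul]
  refine (mul_le_mul (GRO_B_le hχ _) (GRO_a_diff hs n) (norm_nonneg _) (by positivity)).trans (le_of_eq ?_)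
  ring

/-- the domain -/
def GRO_U (R : ℝ) : Set ℂ := {z : ℂ | 1 / 4 < z.re} ∩ Metric.ball 0 R

theorem GRO_U_open (R : ℝ) : IsOpen (GRO_U R) :=
  (isOpen_lt continuous_const Complex.continuous_re).inter Metric.isOpen_ball

theorem GRO_U_convex (R : ℝ) : Convex ℝ (GRO_U R) :=
  (convex_halfSpace_re_gt (1 / 4)).inter (convex_ball 0 R)

theorem GRO_G_diff {q : ℕ} [NeZero q] {χ : DirichletCharacter ℂ q} (hχ : χ ≠ 1) (R : ℝ) (_hR : 0 < R) :
    DifferentiableOn ℂ (h99_G χ) (GRO_U R) := by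
  refine Complex.differentiableOn_tsum_of_summable_norm (u := fun n : ℕ =>
    2 * (q : ℝ) * R * (1 / ((n : ℝ) + 1) ^ (5 / 4 : ℝ))) (GRO_summable.mul_left _) ?_
    (GRO_U_open R) (fun n s hs => (GRO_term hχ n hs.1).trans ?_)
  · intro n
    apply Differentiable.differentiableOn
    have : Differentiable ℂ fun s : ℂ => h99_a s n := by
      unfold h99_a
      fun_prop
    have h2 : Differentiable ℂ fun s : ℂ => h99_a s (n + 1) := by
      unfold h99_a
      fun_prop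
    exact (this.sub h2).const_mul _
  · have h := hs.2
    rw [Metric.mem_ball, dist_zero_right] at h
    gcongr

theorem GRO_a_term {q : ℕ} (χ : DirichletCharacter ℂ q) (s : ℂ) (n : ℕ) :
    LSeries.term (fun n => χ n) s (n + 1) = χ ((n + 1 : ℕ) : ZMod q) * h99_a s n := by
  have hn' : ((n + 1 : ℕ) : ℂ) ≠ 0 := by exact_mod_cast Nat.succ_ne_zero n
  rw [LSeries.term_of_ne_zero (Nat.succ_ne_zero n), h99_a, Complex.cpow_def_of_ne_zero hn',
    ← Complex.natCast_log, div_eq_mul_inv, ← Complex.exp_neg]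
  congr 2
  push_cast
  ring

theorem GRO_G_eq {q : ℕ} [NeZero q] {χ : DirichletCharacter ℂ q} (hχ : χ ≠ 1) {s : ℂ}
    (h1 : 1 < s.re) : h99_G χ s = DirichletCharacter.LFunction χ s := by
  rw [DirichletCharacter.LFunction_eq_LSeries χ h1]
  have hsum : LSeriesSummable (fun n => χ n) s :=
    ZMod.LSeriesSummable_of_one_lt_re χ h1
  have ht := hsum.hasSum.tendsto_sum_nat
  have ht1 := (Filter.tendsto_add_atTop_iff_nat 1).2 ht
  have e : ∀ N : ℕ, ∑ i ∈ Finset.range (N + 1), LSeries.term (fun n => χ n) s i =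
      (∑ n ∈ Finset.range N, χ ((n + 1 : ℕ) : ZMod q)) * h99_a s N +
      ∑ n ∈ Finset.range N, (∑ m ∈ Finset.range (n + 1), χ ((m + 1 : ℕ) : ZMod q)) *
        (h99_a s n - h99_a s (n + 1)) := by
    intro N
    rw [Finset.sum_range_succ', LSeries.term_zero, add_zero, ← GRO_abel]
    exact Finset.sum_congr rfl fun n _ => GRO_a_term χ s n
  simp_rw [e] at ht1
  have hG : Summable fun n : ℕ => (∑ m ∈ Finset.range (n + 1), χ ((m + 1 : ℕ) : ZMod q)) *
      (h99_a s n - h99_a s (n + 1)) :=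
    Summable.of_norm_bounded (GRO_summable.mul_left (2 * (q : ℝ) * ‖s‖)) fun n => GRO_term hχ n (by linarith)
  have ht2 := hG.hasSum.tendsto_sum_nat
  have ha : Filter.Tendsto (fun N : ℕ => ‖h99_a s N‖) Filter.atTop (nhds 0) := by
    have e3 : ∀ N : ℕ, ‖h99_a s N‖ = ((N : ℝ) + 1) ^ (-s.re) := by
      intro N
      have hN : (0 : ℝ) < (N : ℝ) + 1 := by positivity
      rw [h99_a, Complex.norm_exp, Real.rpow_def_of_pos hN, Complex.mul_re, Complex.ofReal_re,
        Complex.ofReal_im, Complex.neg_re]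
      congr 1
      ring
    simp_rw [e3]
    exact (tendsto_rpow_neg_atTop (by linarith)).comp
      (Filter.tendsto_atTop_add_const_right _ 1 tendsto_natCast_atTop_atTop)
  have hB : Filter.Tendsto (fun N : ℕ => (∑ n ∈ Finset.range N, χ ((n + 1 : ℕ) : ZMod q)) * h99_a s N)
      Filter.atTop (nhds 0) := by
    have h5 := ha.const_mul (2 * (q : ℝ))
    rw [mul_zero] at h5
    refine squeeze_zero_norm (fun N => ?_) h5
    rw [norm_mul]
    exact mul_le_mul_of_nonneg_right (GRO_B_le hχ N) (norm_nonneg _)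
  have ht3 := hB.add ht2
  rw [zero_add] at ht3
  exact tendsto_nhds_unique ht3 ht1

theorem GRO_bound {q : ℕ} [NeZero q] {χ : DirichletCharacter ℂ q} (hχ : χ ≠ 1) {s : ℂ}
    (hs : 1 / 4 < s.re) :
    ‖DirichletCharacter.LFunction χ s‖ ≤ 2 * q * ‖s‖ * ∑' n : ℕ, 1 / ((n : ℝ) + 1) ^ (5 / 4 : ℝ) := by
  set R : ℝ := ‖s‖ + 3 with hR
  have hR0 : 0 < R := by positivity
  have hG : AnalyticOnNhd ℂ (h99_G χ) (GRO_U R) :=
    (GRO_G_diff hχ R hR0).analyticOnNhd (GRO_U_open R)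
  have hL : AnalyticOnNhd ℂ (DirichletCharacter.LFunction χ) (GRO_U R) :=
    (DirichletCharacter.differentiable_LFunction hχ).differentiableOn.analyticOnNhd (GRO_U_open R)
  have h2 : (2 : ℂ) ∈ GRO_U R := by
    refine ⟨by simp; norm_num, ?_⟩
    rw [Metric.mem_ball, dist_zero_right]
    have : ‖(2 : ℂ)‖ = 2 := by simp
    rw [this, hR]
    linarith [norm_nonneg s]
  have hsU : s ∈ GRO_U R := by
    refine ⟨hs, ?_⟩
    rw [Metric.mem_ball, dist_zero_right, hR]
    linarith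
  have hev : h99_G χ =ᶠ[nhds 2] DirichletCharacter.LFunction χ := by
    have hopen : IsOpen {z : ℂ | 1 < z.re} := isOpen_lt continuous_const Complex.continuous_re
    filter_upwards [hopen.mem_nhds (by simp : (2 : ℂ) ∈ {z : ℂ | 1 < z.re})] with z hz
    exact GRO_G_eq hχ hz
  have heq := hG.eqOn_of_preconnected_of_eventuallyEq hL
    (GRO_U_convex R).isPreconnected h2 hev
  rw [← heq hsU, h99_G, ← tsum_mul_left]
  exact tsum_of_norm_bounded (GRO_summable.mul_left (2 * (q : ℝ) * ‖s‖)).hasSum fun n => GRO_term hχ n hs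

theorem GRO : GRO_stmt := by
  set Z := ∑' n : ℕ, 1 / ((n : ℝ) + 1) ^ (5 / 4 : ℝ) with hZ
  have hZ0 : 0 ≤ Z := tsum_nonneg fun n => by positivity
  refine ⟨2 * Z + 1, by positivity, ?_⟩
  intro q χ hq hχ s hs
  have : NeZero q := ⟨by omega⟩
  have hLL : LL χ s = DirichletCharacter.LFunction χ s := by
    unfold LL
    rw [dif_neg (by omega)]
  rw [hLL]
  refine (GRO_bound hχ (by linarith)).trans ?_
  have hq0 : (0 : ℝ) ≤ q := Nat.cast_nonneg q
  have hn := norm_nonneg s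
  calc 2 * (q : ℝ) * ‖s‖ * Z = (2 * Z) * q * ‖s‖ := by ring
    _ ≤ (2 * Z + 1) * q * (1 + ‖s‖) := by
        have h1 : (2 * Z) * (q : ℝ) ≤ (2 * Z + 1) * q := by nlinarith
        exact mul_le_mul h1 (by linarith) hn (by positivity)

end Pool.Agent.TWG
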