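import Pool.Agent.helper40.TW.SpecG
import Pool.Agent.helper98.EV.PW

/-!
# Project TW, block G, row PPS
-/

set_option autoImplicit false

open Complex MeasureTheory Metric
open scoped ComplexConjugate ArithmeticFunction.vonMangoldt

namespace Pool.Agent.TWG

theorem PPS : PPS_stmt := by
  refine Pool.Agent.EV.PW_F0_summable.congr fun n => ?_
  unfold Pool.Agent.EV.PW_F0
  split_ifs <;> simp

end Pool.Agent.TWG
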