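import Pool.Agent.helper40.TW.SpecG

/-!
# Project TW, block G, row SL1
-/

set_option autoImplicit false

open Complex MeasureTheory Metric
open scoped ComplexConjugate ArithmeticFunction.vonMangoldt

namespace Pool.Agent.TWG

open Pool.Agent.helper6.LD (wt)
open Pool.Agent.helper85.BVP (ex)
open Pool.Agent.TW (Win Pw)

/-- the function on `ZMod m` -/
noncomputable def SL1_f (m : ℕ) (S : Finset ℕ) (a : ℕ → ℂ) (b : ZMod m) : ℂ :=
  if h : m = 0 then 0 else (have : NeZero m := ⟨h⟩; ∑ n ∈ S, a n * (ZMod.stdAddChar (b * (n : ZMod m)) : ℂ))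

theorem SL1_key (hGSI : GSI_stmt) (q m : ℕ) [NeZero m] (S : Finset ℕ) (a : ℕ → ℂ) (hqm : q ∣ m)
    (hS : ∀ n ∈ S, a n ≠ 0 → Nat.Coprime n m) (hsq : Squarefree (m / q)) (hco : Nat.Coprime q (m / q))
    (χ : DirichletCharacter ℂ q) (hχ : χ.IsPrimitive) :
    (q : ℝ) * ‖∑ n ∈ S, a n * χ n‖ ^ 2 =
      ‖∑ b : ZMod m, (DirichletCharacter.changeLevel hqm χ)⁻¹ b *
        ∑ n ∈ S, a n * (ZMod.stdAddChar (b * (n : ZMod m)) : ℂ)‖ ^ 2 := by
  obtain ⟨r, hr⟩ := hqm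
  have hm0 : m ≠ 0 := NeZero.ne m
  have hq0 : q ≠ 0 := by rintro rfl; simp at hr; exact hm0 hr
  have hr0 : r ≠ 0 := by rintro rfl; simp at hr; exact hm0 hr
  have : NeZero q := ⟨hq0⟩
  have : NeZero r := ⟨hr0⟩
  subst hr
  have hdiv : q * r / q = r := Nat.mul_div_cancel_left r (Nat.pos_of_ne_zero hq0)
  rw [hdiv] at hsq hco
  set ψ : DirichletCharacter ℂ (q * r) := DirichletCharacter.changeLevel (dvd_mul_right q r) χ with hψ
  have hχi : (χ⁻¹).IsPrimitive := by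
    rw [DirichletCharacter.isPrimitive_def, DirichletCharacter.conductor_inv]
    exact hχ
  have hψi : ψ⁻¹ = DirichletCharacter.changeLevel (dvd_mul_right q r) χ⁻¹ := by
    rw [hψ, map_inv]
  have hG : ‖gaussSum ψ⁻¹ (ZMod.stdAddChar : AddChar (ZMod (q * r)) ℂ)‖ ^ 2 = q := by
    rw [hψi]
    exact hGSI q r χ⁻¹ hco hsq hχi
  have h2 : ∑ b : ZMod (q * r), ψ⁻¹ b * ∑ n ∈ S, a n * (ZMod.stdAddChar (b * (n : ZMod (q * r))) : ℂ)
      = gaussSum ψ⁻¹ (ZMod.stdAddChar : AddChar (ZMod (q * r)) ℂ) * ∑ n ∈ S, a n * χ n := by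
    simp only [Finset.mul_sum]
    rw [Finset.sum_comm]
    refine Finset.sum_congr rfl fun n hn => ?_
    by_cases han : a n = 0
    · simp [han]
    have hcop : Nat.Coprime n (q * r) := hS n hn han
    have h3 : ∑ b : ZMod (q * r), ψ⁻¹ b * (a n * (ZMod.stdAddChar (b * (n : ZMod (q * r))) : ℂ))
        = a n * gaussSum ψ⁻¹ ((ZMod.stdAddChar : AddChar (ZMod (q * r)) ℂ).mulShift (n : ZMod (q * r))) := by
      rw [gaussSum, Finset.mul_sum]
      refine Finset.sum_congr rfl fun b _ => ?_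
      rw [AddChar.mulShift_apply, mul_comm (n : ZMod (q * r)) b]
      ring
    rw [h3]
    set u : (ZMod (q * r))ˣ := ZMod.unitOfCoprime n hcop with hu
    have hun : ((u : (ZMod (q * r))ˣ) : ZMod (q * r)) = (n : ZMod (q * r)) := ZMod.coe_unitOfCoprime n hcop
    have h4 : ψ⁻¹ (n : ZMod (q * r)) * gaussSum ψ⁻¹ ((ZMod.stdAddChar : AddChar (ZMod (q * r)) ℂ).mulShift (n : ZMod (q * r)))
        = gaussSum ψ⁻¹ (ZMod.stdAddChar : AddChar (ZMod (q * r)) ℂ) := by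
      rw [← hun]
      exact gaussSum_mulShift _ _ u
    have h5 : ψ (n : ZMod (q * r)) * ψ⁻¹ (n : ZMod (q * r)) = 1 := by
      have h6 : (ψ * ψ⁻¹) (n : ZMod (q * r)) = 1 := by
        rw [mul_inv_cancel, MulChar.one_apply]
        exact (ZMod.isUnit_iff_coprime n (q * r)).mpr hcop
      rw [MulChar.mul_apply] at h6
      exact h6
    have h7 : ψ (n : ZMod (q * r)) = χ n := by
      have h8 := DirichletCharacter.changeLevel_eq_cast_of_dvd' χ (dvd_mul_right q r) (a := (n : ℤ))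
        (by exact_mod_cast Nat.isCoprime_iff_coprime.mpr hcop)
      simpa using h8
    have h9 : gaussSum ψ⁻¹ ((ZMod.stdAddChar : AddChar (ZMod (q * r)) ℂ).mulShift (n : ZMod (q * r)))
        = χ n * gaussSum ψ⁻¹ (ZMod.stdAddChar : AddChar (ZMod (q * r)) ℂ) := by
      calc gaussSum ψ⁻¹ ((ZMod.stdAddChar : AddChar (ZMod (q * r)) ℂ).mulShift (n : ZMod (q * r)))
          = (ψ (n : ZMod (q * r)) * ψ⁻¹ (n : ZMod (q * r))) *
            gaussSum ψ⁻¹ ((ZMod.stdAddChar : AddChar (ZMod (q * r)) ℂ).mulShift (n : ZMod (q * r))) := by rw [h5, one_mul]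
        _ = ψ (n : ZMod (q * r)) * gaussSum ψ⁻¹ (ZMod.stdAddChar : AddChar (ZMod (q * r)) ℂ) := by rw [mul_assoc, h4]
        _ = _ := by rw [h7]
    rw [h9]; ring
  rw [h2, norm_mul, mul_pow, hG]

open Classical in
theorem SL1 (hGSI : GSI_stmt) : SL1_stmt := by
  intro m S a hm hS
  have : NeZero m := ⟨by omega⟩
  have hφ : (0 : ℝ) < Nat.totient m := by
    exact_mod_cast Nat.totient_pos.mpr hm
  set f : ZMod m → ℂ := fun b => ∑ n ∈ S, a n * (ZMod.stdAddChar (b * (n : ZMod m)) : ℂ) with hf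
  set F : DirichletCharacter ℂ m → ℝ := fun ψ => ‖∑ b : ZMod m, ψ b * f b‖ ^ 2 with hF
  have hR : ∑ b ∈ (Finset.range m).filter (fun b => Nat.Coprime b m), ‖∑ n ∈ S, a n * ex ((n : ℝ) * ((b : ℝ) / m))‖ ^ 2
      = ∑ b : ZMod m, (if IsUnit b then ‖f b‖ ^ 2 else 0) := by
    rw [Pool.Agent.helper85.MT.sum_units_eq]
    refine Finset.sum_congr rfl fun b _ => ?_
    simp only [hf]
    simp_rw [Pool.Agent.helper85.MT.std_eq_ex]
  have hP := Pool.Agent.helper85.MT.mul_parseval m f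
  rw [hR]
  -- the family of pairs
  set A : Finset (Σ q : ℕ, DirichletCharacter ℂ q) :=
    (m.divisors.filter (fun q => Squarefree (m / q) ∧ Nat.Coprime q (m / q))).sigma (fun q => PC q) with hA
  set g : (Σ q : ℕ, DirichletCharacter ℂ q) → DirichletCharacter ℂ m :=
    fun x => if h : x.1 ∣ m then (DirichletCharacter.changeLevel h x.2)⁻¹ else 1 with hg
  have hmem : ∀ x ∈ A, x.1 ∣ m ∧ Squarefree (m / x.1) ∧ Nat.Coprime x.1 (m / x.1) ∧ x.2.IsPrimitive := by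
    intro x hx
    rw [hA, Finset.mem_sigma, Finset.mem_filter] at hx
    refine ⟨Nat.dvd_of_mem_divisors hx.1.1, hx.1.2.1, hx.1.2.2, ?_⟩
    have := hx.2
    unfold PC at this
    exact (Finset.mem_filter.mp this).2
  have hval : ∀ x ∈ A, (x.1 : ℝ) * ‖∑ n ∈ S, a n * x.2 n‖ ^ 2 = F (g x) := by
    intro x hx
    obtain ⟨h1, h2, h3, h4⟩ := hmem x hx
    have := SL1_key hGSI x.1 m S a h1 hS h2 h3 x.2 h4
    rw [this]
    simp only [hF, hg, hf, dif_pos h1]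
  have hinj : Set.InjOn g (A : Set (Σ q : ℕ, DirichletCharacter ℂ q)) := by
    rintro ⟨q, χ⟩ hx ⟨q', χ'⟩ hx' hgg
    obtain ⟨h1, -, -, h4⟩ := hmem _ hx
    obtain ⟨h1', -, -, h4'⟩ := hmem _ hx'
    simp only at h1 h4 h1' h4'
    simp only [hg, dif_pos h1, dif_pos h1'] at hgg
    have h5 : DirichletCharacter.changeLevel h1 χ = DirichletCharacter.changeLevel h1' χ' := inv_injective hgg
    have h6 : q = q' := by
      have e1 := DirichletCharacter.conductor_changeLevel χ h1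
      have e2 := DirichletCharacter.conductor_changeLevel χ' h1'
      rw [h5, e2] at e1
      rw [DirichletCharacter.isPrimitive_def] at h4 h4'
      rw [← h4, ← h4', e1]
    subst h6
    have h7 : χ = χ' := DirichletCharacter.changeLevel_injective h1 h5
    rw [h7]
  have hsum : ∑ x ∈ A, (x.1 : ℝ) * ‖∑ n ∈ S, a n * x.2 n‖ ^ 2 ≤
      (Nat.totient m : ℝ) * ∑ b : ZMod m, (if IsUnit b then ‖f b‖ ^ 2 else 0) := by
    rw [← hP, Finset.sum_congr rfl hval, ← Finset.sum_image (f := F) (fun x hx y hy h => hinj hx hy h)]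
    exact Finset.sum_le_sum_of_subset_of_nonneg (Finset.subset_univ _) (fun _ _ _ => sq_nonneg _)
  have hL : ∑ q ∈ m.divisors with (Squarefree (m / q) ∧ Nat.Coprime q (m / q)),
      (q : ℝ) / Nat.totient m * ∑ χ ∈ PC q, ‖∑ n ∈ S, a n * χ n‖ ^ 2
      = (∑ x ∈ A, (x.1 : ℝ) * ‖∑ n ∈ S, a n * x.2 n‖ ^ 2) / Nat.totient m := by
    rw [hA, Finset.sum_sigma, Finset.sum_div]
    refine Finset.sum_congr rfl fun q _ => ?_
    have e : ∑ s ∈ PC q, (((⟨q, s⟩ : Σ q : ℕ, DirichletCharacter ℂ q).fst : ℕ) : ℝ) *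
        ‖∑ n ∈ S, a n * (⟨q, s⟩ : Σ q : ℕ, DirichletCharacter ℂ q).snd n‖ ^ 2 =
        (q : ℝ) * ∑ χ ∈ PC q, ‖∑ n ∈ S, a n * χ n‖ ^ 2 := by
      rw [Finset.mul_sum]
    rw [e]
    ring
  rw [hL, div_le_iff₀ hφ]
  linarith [hsum]

end Pool.Agent.TWG
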