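import Pool.Agent.helper40.TW.SpecG

/-!
# Project TW, block G, row TRU
-/

set_option autoImplicit false

open Complex MeasureTheory Metric
open scoped ComplexConjugate ArithmeticFunction.vonMangoldt

namespace Pool.Agent.TWG

open Pool.Agent.helper6.LD (wt)
open Pool.Agent.helper85.BVP (ex)
open Pool.Agent.TW (Win Pw)

theorem TRU_succ_le (k : ℕ) : ((k : ℝ) + 1) ≤ 2 ^ k := by
  have : k + 1 ≤ 2 ^ k := Nat.lt_two_pow_self
  exact_mod_cast this

/-- part (a), numerical -/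
theorem TRU_numa (C θ r : ℝ) (K k : ℕ) (hC : 1 ≤ C) (hθ : θ = 1 / (100000 * C)) (hr : 0 < r) (hr1 : r ≤ 1)
    (hk : 2 ≤ k) (hKk : K ≤ k) :
    (r ^ (k - 1))⁻¹ * (2 * Real.exp 1 * θ) ^ (k - 1) * (C * (1 + θ * K / r)) ≤ 1 / 12 * ((10 * r) ^ k)⁻¹ := by
  have hC0 : 0 < C := by linarith
  have hθ0 : 0 < θ := by rw [hθ]; positivity
  have hθ1 : θ ≤ 1 := by
    rw [hθ, div_le_one (by positivity)]; nlinarith
  obtain ⟨m, rfl⟩ : ∃ m, k = m + 1 := ⟨k - 1, by omega⟩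
  have hm : 1 ≤ m := by omega
  rw [Nat.add_sub_cancel]
  have he : Real.exp 1 ≤ 2.75 := by
    have := Real.exp_one_lt_d9
    linarith
  have hKr : (K : ℝ) ≤ m + 1 := by exact_mod_cast hKk
  have h1 : 1 + θ * K / r ≤ r⁻¹ * 2 ^ (m + 1) := by
    have h2 : 1 + θ * K / r = r⁻¹ * (r + θ * K) := by
      field_simp
    rw [h2]
    refine mul_le_mul_of_nonneg_left ?_ (by positivity)
    calc r + θ * K ≤ 1 + 1 * ((m : ℝ) + 1) := by
          refine add_le_add hr1 (mul_le_mul hθ1 hKr (by positivity) (by norm_num))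
      _ = ((m + 1 : ℕ) : ℝ) + 1 := by push_cast; ring
      _ ≤ 2 ^ (m + 1) := TRU_succ_le _
  have h3 : (20 * (2 * Real.exp 1 * θ)) * (240 * C) ≤ 1 := by
    rw [hθ]
    have : 20 * (2 * Real.exp 1 * (1 / (100000 * C))) * (240 * C) = 9600 / 100000 * Real.exp 1 := by
      field_simp
      ring
    rw [this]; linarith
  have h4 : 20 * (2 * Real.exp 1 * θ) ≤ 1 := by
    have h5 : 0 < 20 * (2 * Real.exp 1 * θ) := by positivity
    nlinarith
  have h6 : (20 * (2 * Real.exp 1 * θ)) ^ m ≤ 20 * (2 * Real.exp 1 * θ) := by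
    calc (20 * (2 * Real.exp 1 * θ)) ^ m ≤ (20 * (2 * Real.exp 1 * θ)) ^ 1 :=
          pow_le_pow_of_le_one (by positivity) h4 hm
      _ = _ := pow_one _
  have h7 : (2 * Real.exp 1 * θ) ^ m = (20 * (2 * Real.exp 1 * θ)) ^ m * ((20 : ℝ) ^ m)⁻¹ := by
    rw [mul_pow 20]; field_simp
  calc (r ^ m)⁻¹ * (2 * Real.exp 1 * θ) ^ m * (C * (1 + θ * K / r))
      ≤ (r ^ m)⁻¹ * ((20 * (2 * Real.exp 1 * θ)) * ((20 : ℝ) ^ m)⁻¹) * (C * (r⁻¹ * 2 ^ (m + 1))) := by
        rw [h7]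
        gcongr
    _ = ((20 * (2 * Real.exp 1 * θ)) * (240 * C)) * (1 / 12 * ((10 * r) ^ (m + 1))⁻¹) := by
        have h20 : (20 : ℝ) ^ m = 2 ^ m * 10 ^ m := by rw [← mul_pow]; norm_num
        rw [h20, mul_pow 10 r, pow_succ 2, pow_succ 10, pow_succ r]
        field_simp
        ring
    _ ≤ 1 * (1 / 12 * ((10 * r) ^ (m + 1))⁻¹) := mul_le_mul_of_nonneg_right h3 (by positivity)
    _ = _ := one_mul _

/-- part (b), numerical -/
theorem TRU_numb (C θ r : ℝ) (K k : ℕ) (hC : 1 ≤ C) (hθ : θ = 8 * Real.log (1440 * C)) (hr : 0 < r) (hr1 : r ≤ 1)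
    (hk : 2 ≤ k) (hkK : k ≤ 2 * K) :
    (r ^ (k - 1))⁻¹ * 4 ^ (k - 1) * Real.exp (-(θ * K / 4)) * (1 / (r / 2) + C) ≤ 1 / 12 * ((10 * r) ^ k)⁻¹ := by
  have hC0 : 0 < C := by linarith
  have hθ0 : 0 < θ := by
    rw [hθ]; have := Real.log_pos (x := 1440 * C) (by nlinarith); linarith
  obtain ⟨m, rfl⟩ : ∃ m, k = m + 1 := ⟨k - 1, by omega⟩
  rw [Nat.add_sub_cancel]
  have hkK' : ((m : ℝ) + 1) ≤ 2 * K := by exact_mod_cast hkK
  have h1 : Real.exp (-(θ * K / 4)) ≤ ((1440 * C)⁻¹) ^ (m + 1) := by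
    have h2 : ((1440 * C)⁻¹) ^ (m + 1) = Real.exp (-(θ * ((m : ℝ) + 1) / 8)) := by
      rw [hθ]
      have h3 : -(8 * Real.log (1440 * C) * ((m : ℝ) + 1) / 8) = ((m + 1 : ℕ) : ℝ) * (-Real.log (1440 * C)) := by
        push_cast; ring
      rw [h3, Real.exp_nat_mul, Real.exp_neg, Real.exp_log (by positivity)]
    rw [h2, Real.exp_le_exp]
    nlinarith
  have h4 : 1 / (r / 2) + C ≤ r⁻¹ * (3 * C) := by
    have : 1 / (r / 2) + C = r⁻¹ * (2 + C * r) := by field_simp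
    rw [this]
    refine mul_le_mul_of_nonneg_left ?_ (by positivity)
    nlinarith
  calc (r ^ m)⁻¹ * 4 ^ m * Real.exp (-(θ * K / 4)) * (1 / (r / 2) + C)
      ≤ (r ^ m)⁻¹ * 4 ^ m * ((1440 * C)⁻¹) ^ (m + 1) * (r⁻¹ * (3 * C)) := by
        gcongr
    _ = (1 / 12 * ((10 * r) ^ (m + 1))⁻¹) * ((36 * C) * (40 * (1440 * C)⁻¹) ^ (m + 1) / 4) := by
        have h40 : (40 : ℝ) ^ (m + 1) = 4 ^ m * 4 * 10 ^ (m + 1) := by
          rw [← pow_succ, ← mul_pow]; norm_num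
        rw [mul_pow 40, h40, mul_pow 10 r, pow_succ r]
        field_simp
        ring
    _ ≤ (1 / 12 * ((10 * r) ^ (m + 1))⁻¹) * 1 := by
        refine mul_le_mul_of_nonneg_left ?_ (by positivity)
        have h5 : 40 * (1440 * C)⁻¹ = (36 * C)⁻¹ := by
          field_simp; norm_num
        rw [h5]
        have h6 : ((36 * C)⁻¹) ^ (m + 1) ≤ (36 * C)⁻¹ := by
          calc ((36 * C)⁻¹) ^ (m + 1) ≤ ((36 * C)⁻¹) ^ 1 :=
                pow_le_pow_of_le_one (by positivity) (inv_le_one_of_one_le₀ (by nlinarith)) (by omega)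
            _ = _ := pow_one _
        have h7 : 36 * C * ((36 * C)⁻¹) ^ (m + 1) ≤ 1 := by
          calc 36 * C * ((36 * C)⁻¹) ^ (m + 1) ≤ 36 * C * (36 * C)⁻¹ := mul_le_mul_of_nonneg_left h6 (by positivity)
            _ = 1 := mul_inv_cancel₀ (by positivity)
        linarith
    _ = _ := mul_one _

/-- part (c), numerical -/
theorem TRU_numc (S θ r : ℝ) (K k : ℕ) (hS : 1 ≤ S) (hθ : 0 < θ) (hr : 0 < r) (hr1 : r ≤ θ / (6 * Real.log (120 * S)))
    (hr2 : r ≤ 1) (hk : 2 ≤ k) (hkK : k ≤ 2 * K) :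
    (r ^ (k - 1))⁻¹ * Real.exp (-(θ * K / r / 3)) * S ≤ 1 / 12 * ((10 * r) ^ k)⁻¹ := by
  have hS0 : 0 < S := by linarith
  have hlog : 0 < Real.log (120 * S) := Real.log_pos (by nlinarith)
  obtain ⟨m, rfl⟩ : ∃ m, k = m + 1 := ⟨k - 1, by omega⟩
  rw [Nat.add_sub_cancel]
  have hkK' : ((m : ℝ) + 1) ≤ 2 * K := by exact_mod_cast hkK
  have h0 : Real.log (120 * S) ≤ θ / r / 6 := by
    rw [le_div_iff₀ (by positivity)] at hr1
    rw [le_div_iff₀ (by norm_num), le_div_iff₀ hr]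
    linarith
  have h1 : Real.exp (-(θ * K / r / 3)) ≤ ((120 * S)⁻¹) ^ (m + 1) := by
    have h2 : ((120 * S)⁻¹) ^ (m + 1) = Real.exp (-(((m : ℝ) + 1) * Real.log (120 * S))) := by
      have h3 : -(((m : ℝ) + 1) * Real.log (120 * S)) = ((m + 1 : ℕ) : ℝ) * (-Real.log (120 * S)) := by
        push_cast; ring
      rw [h3, Real.exp_nat_mul, Real.exp_neg, Real.exp_log (by positivity)]
    rw [h2, Real.exp_le_exp, neg_le_neg_iff]
    have h5 : 0 ≤ θ / r := by positivity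
    calc ((m : ℝ) + 1) * Real.log (120 * S) ≤ (2 * K) * (θ / r / 6) := by
          refine mul_le_mul hkK' h0 hlog.le (by positivity)
      _ = θ * K / r / 3 := by ring
  calc (r ^ m)⁻¹ * Real.exp (-(θ * K / r / 3)) * S
      ≤ (r ^ m)⁻¹ * ((120 * S)⁻¹) ^ (m + 1) * S := by gcongr
    _ ≤ (r ^ (m + 1))⁻¹ * ((120 * S)⁻¹) ^ (m + 1) * S := by
        have : (r ^ m)⁻¹ ≤ (r ^ (m + 1))⁻¹ := by
          apply inv_anti₀ (by positivity)
          rw [pow_succ]
          calc r ^ m * r ≤ r ^ m * 1 := mul_le_mul_of_nonneg_left hr2 (by positivity)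
            _ = r ^ m := mul_one _
        gcongr
    _ = (1 / 12 * ((10 * r) ^ (m + 1))⁻¹) * ((12 * S) * (10 * (120 * S)⁻¹) ^ (m + 1)) := by
        rw [mul_pow 10 (120 * S)⁻¹, mul_pow 10 r]
        field_simp
    _ ≤ (1 / 12 * ((10 * r) ^ (m + 1))⁻¹) * 1 := by
        refine mul_le_mul_of_nonneg_left ?_ (by positivity)
        have h5 : 10 * (120 * S)⁻¹ = (12 * S)⁻¹ := by
          field_simp; norm_num
        rw [h5]
        have h6 : ((12 * S)⁻¹) ^ (m + 1) ≤ (12 * S)⁻¹ := by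
          calc ((12 * S)⁻¹) ^ (m + 1) ≤ ((12 * S)⁻¹) ^ 1 :=
                pow_le_pow_of_le_one (by positivity) (inv_le_one_of_one_le₀ (by nlinarith)) (by omega)
            _ = _ := pow_one _
        calc 12 * S * ((12 * S)⁻¹) ^ (m + 1) ≤ 12 * S * (12 * S)⁻¹ := mul_le_mul_of_nonneg_left h6 (by positivity)
          _ = 1 := mul_inv_cancel₀ (by positivity)
    _ = _ := mul_one _

theorem TRU (hSER : SER_stmt) (hMER : MER_stmt) (hPPS : PPS_stmt) (hWTB : WTB_stmt) (hZE1 : ZE1_stmt) : TRU_stmt := by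
  obtain ⟨C₁, hC₁, hM⟩ := hMER
  obtain ⟨C₂, hC₂, hZ, -⟩ := hZE1
  set C := max C₁ (max C₂ 1) with hCdef
  have hC1 : C₁ ≤ C := le_max_left _ _
  have hC2 : C₂ ≤ C := (le_max_left _ _).trans (le_max_right _ _)
  have hC : 1 ≤ C := (le_max_right _ _).trans (le_max_right _ _)
  have hC0 : 0 < C := by linarith
  set gg : ℕ → ℝ := fun n : ℕ => if n.Prime then 0 else Λ n * (n : ℝ) ^ (-(2 / 3) : ℝ) with hgg
  have hgs : Summable gg := hPPS
  have hg0 : ∀ n, 0 ≤ gg n := by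
    intro n
    simp only [hgg]
    split_ifs
    · exact le_rfl
    · exact mul_nonneg ArithmeticFunction.vonMangoldt_nonneg (by positivity)
  set S := max (∑' n, gg n) 1 with hSdef
  have hS1 : 1 ≤ S := le_max_right _ _
  have hS2 : ∑' n, gg n ≤ S := le_max_left _ _
  set θ₁ : ℝ := 1 / (100000 * C) with hθ₁
  set θ₂ : ℝ := 8 * Real.log (1440 * C) with hθ₂
  have hθ₁0 : 0 < θ₁ := by positivity
  have hθ₁1 : θ₁ ≤ 1 := by
    rw [hθ₁, div_le_one (by positivity)]; nlinarith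
  have hl : 1 < Real.log (1440 * C) := by
    rw [Real.lt_log_iff_exp_lt (by positivity)]
    have := Real.exp_one_lt_d9
    nlinarith
  have hl2 : 1 < Real.log (120 * S) := by
    rw [Real.lt_log_iff_exp_lt (by positivity)]
    have := Real.exp_one_lt_d9
    nlinarith
  set r₀ : ℝ := θ₁ / (6 * Real.log (120 * S)) with hr₀
  have hr₀0 : 0 < r₀ := by positivity
  have hr₀1 : r₀ ≤ 1 := by
    rw [hr₀, div_le_one (by positivity)]; nlinarith
  refine ⟨θ₁, θ₂, r₀, hθ₁0, by rw [hθ₂]; nlinarith, by rw [hθ₂]; linarith, hr₀0, hr₀1, ?_⟩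
  intro q χ hq r v K k hr hrr₀ hK hKk hkK
  have hr1 : r ≤ 1 := hrr₀.trans hr₀1
  have hk2 : 2 ≤ k := hK.trans hKk
  obtain ⟨hs, hnn, hsc, -, -, -⟩ := hSER q χ k r hq (by omega) hr
  set x : ℝ := Real.exp (θ₁ * K / r) with hx
  set y : ℝ := Real.exp (θ₂ * K / r) with hy
  set F : Finset ℕ := (Finset.Ioc ⌊x⌋₊ ⌊y⌋₊).filter Nat.Prime with hF
  set a : ℕ → ℂ := fun n => (wt (1 + r) k n : ℂ) * χ n * (n : ℂ) ^ (-(v * I)) with ha
  have hac : Summable a := hsc v
  have hnorm : ∀ n, ‖a n‖ ≤ wt (1 + r) k n := by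
    intro n
    simp only [ha]
    rcases Nat.eq_zero_or_pos n with h0 | h0
    · subst h0
      have : wt (1 + r) k 0 = 0 := by simp [wt]
      rw [this]; simp
    · rw [norm_mul, norm_mul, Complex.norm_real, Real.norm_of_nonneg (hnn n)]
      have h1 : ‖(n : ℂ) ^ (-(v * I))‖ = 1 := by
        rw [Complex.norm_natCast_cpow_of_pos h0]
        simp
      rw [h1, mul_one]
      exact mul_le_of_le_one_right (hnn n) (DirichletCharacter.norm_le_one χ _)
  -- the difference as a tsum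
  have hdiff : PP χ k r v - DP χ k r x y v = ∑' n, (if n ∈ F then 0 else a n) := by
    have hfin : Summable (fun n => if n ∈ F then a n else 0) :=
      summable_of_ne_finset_zero (s := F) (fun n hn => by simp [hn])
    have e1 : PP χ k r v = ∑' n, a n := rfl
    have e2 : DP χ k r x y v = ∑' n, (if n ∈ F then a n else 0) := by
      rw [tsum_eq_sum (s := F) (fun n hn => by simp [hn])]
      rw [Finset.sum_congr rfl (fun n hn => if_pos hn)]
      rw [hF]
      unfold DP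
      exact Finset.sum_congr (by ext; simp) (fun _ _ => rfl)
    rw [e1, e2, ← (hac.tsum_sub hfin)]
    refine tsum_congr fun n => ?_
    by_cases h : n ∈ F <;> simp [h]
  set c₁ : ℝ := (r ^ (k - 1))⁻¹ * (2 * Real.exp 1 * θ₁) ^ (k - 1) with hc₁
  set c₂ : ℝ := (r ^ (k - 1))⁻¹ * 4 ^ (k - 1) * Real.exp (-(θ₂ * K / 4)) with hc₂
  set c₃ : ℝ := (r ^ (k - 1))⁻¹ * Real.exp (-(θ₁ * K / r / 3)) with hc₃
  have hc₁0 : 0 ≤ c₁ := by positivity
  have hc₂0 : 0 ≤ c₂ := by positivity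
  have hc₃0 : 0 ≤ c₃ := by positivity
  set g₁ : ℕ → ℝ := fun n => if n ∈ Finset.Icc 1 ⌊x⌋₊ then c₁ * (Λ n / n) else 0 with hg₁
  set g₂ : ℕ → ℝ := fun n => c₂ * wt (1 + r / 2) 1 n with hg₂
  set g₃ : ℕ → ℝ := fun n => c₃ * gg n with hg₃
  obtain ⟨hs2, hnn2, -, -, -, -⟩ := hSER q χ 1 (r / 2) hq (le_refl 1) (by positivity)
  have hL0 : ∀ n : ℕ, 0 ≤ Λ n / (n : ℝ) := fun n => div_nonneg ArithmeticFunction.vonMangoldt_nonneg (by positivity)
  have hg₁n : ∀ n, 0 ≤ g₁ n := by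
    intro n
    simp only [hg₁]
    split_ifs
    · exact mul_nonneg hc₁0 (hL0 n)
    · exact le_rfl
  have hg₂n : ∀ n, 0 ≤ g₂ n := fun n => mul_nonneg hc₂0 (hnn2 n)
  have hg₃n : ∀ n, 0 ≤ g₃ n := fun n => mul_nonneg hc₃0 (hg0 n)
  have hs₁ : Summable g₁ := summable_of_ne_finset_zero (s := Finset.Icc 1 ⌊x⌋₊) (fun n hn => by
    simp only [hg₁]; rw [if_neg hn])
  have hs₂ : Summable g₂ := hs2.mul_left c₂
  have hs₃ : Summable g₃ := hgs.mul_left c₃
  have hKk' : (K : ℝ) ≤ k := by exact_mod_cast hKk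
  have hkm : (k : ℝ) ≤ 2 * ((k - 1 : ℕ) : ℝ) := by
    have : k ≤ 2 * (k - 1) := by omega
    exact_mod_cast this
  have hkm0 : (0 : ℝ) < ((k - 1 : ℕ) : ℝ) := by
    have : 0 < k - 1 := by omega
    exact_mod_cast this
  have hle : ∀ n, ‖(if n ∈ F then 0 else a n)‖ ≤ g₁ n + g₂ n + g₃ n := by
    intro n
    have hT : 0 ≤ g₁ n + g₂ n + g₃ n := add_nonneg (add_nonneg (hg₁n n) (hg₂n n)) (hg₃n n)
    by_cases hnF : n ∈ F
    · rw [if_pos hnF, norm_zero]; exact hT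
    rw [if_neg hnF]
    rcases Nat.eq_zero_or_pos n with h0 | h0
    · subst h0
      have : wt (1 + r) k 0 = 0 := by simp [wt]
      exact (hnorm 0).trans (by rw [this]; exact hT)
    obtain ⟨w1, w2, w3⟩ := hWTB k n r (by omega) h0 hr
    have hn0 : (0 : ℝ) < n := by exact_mod_cast h0
    have hlogn : 0 ≤ Real.log n := Real.log_natCast_nonneg n
    refine (hnorm n).trans ?_
    by_cases hnx : n ≤ ⌊x⌋₊
    · -- small n
      have hxn : (n : ℝ) ≤ x := (Nat.le_floor_iff (by positivity)).mp hnx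
      have hrl : r * Real.log n ≤ θ₁ * K := by
        have : Real.log n ≤ θ₁ * K / r := by
          rw [← Real.log_exp (θ₁ * K / r)]
          exact Real.log_le_log hn0 hxn
        rw [le_div_iff₀ hr] at this
        linarith
      have hb : Real.exp 1 * (r * Real.log n) / ((k - 1 : ℕ) : ℝ) ≤ 2 * Real.exp 1 * θ₁ := by
        rw [div_le_iff₀ hkm0]
        calc Real.exp 1 * (r * Real.log n) ≤ Real.exp 1 * (θ₁ * (2 * ((k - 1 : ℕ) : ℝ))) := by
              refine mul_le_mul_of_nonneg_left ?_ (Real.exp_pos 1).le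
              refine hrl.trans (mul_le_mul_of_nonneg_left (hKk'.trans hkm) hθ₁0.le)
          _ = _ := by ring
      have h1 : wt (1 + r) k n ≤ g₁ n := by
        simp only [hg₁]
        rw [if_pos (Finset.mem_Icc.mpr ⟨h0, hnx⟩)]
        calc wt (1 + r) k n ≤ (r ^ (k - 1))⁻¹ * (Λ n / n) * (Real.exp 1 * (r * Real.log n) / (k - 1 : ℕ)) ^ (k - 1) := w2 hk2
          _ ≤ (r ^ (k - 1))⁻¹ * (Λ n / n) * (2 * Real.exp 1 * θ₁) ^ (k - 1) := by
              refine mul_le_mul_of_nonneg_left ?_ (mul_nonneg (by positivity) (hL0 n))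
              exact pow_le_pow_left₀ (by positivity) hb _
          _ = c₁ * (Λ n / n) := by rw [hc₁]; ring
      linarith [hg₂n n, hg₃n n]
    · push_neg at hnx
      have hxn : x < n := by
        have := Nat.lt_of_floor_lt hnx
        exact this
      by_cases hny : n ≤ ⌊y⌋₊
      · -- not prime
        have hnp : ¬ n.Prime := by
          intro hp
          exact hnF (by rw [hF]; exact Finset.mem_filter.mpr ⟨Finset.mem_Ioc.mpr ⟨hnx, hny⟩, hp⟩)
        have h1 : wt (1 + r) k n ≤ g₃ n := by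
          simp only [hg₃, hgg]
          rw [if_neg hnp, hc₃]
          have h2 : Λ n / (n : ℝ) ≤ Real.exp (-(θ₁ * K / r / 3)) * (Λ n * (n : ℝ) ^ (-(2 / 3) : ℝ)) := by
            have h3 : Λ n / (n : ℝ) = (n : ℝ) ^ (-(1 / 3) : ℝ) * (Λ n * (n : ℝ) ^ (-(2 / 3) : ℝ)) := by
              have h4 : (n : ℝ) ^ (-(1 / 3) : ℝ) * (n : ℝ) ^ (-(2 / 3) : ℝ) = (n : ℝ)⁻¹ := by
                rw [← Real.rpow_add hn0, ← Real.rpow_neg_one]
                congr 1
                norm_num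
              rw [div_eq_mul_inv, ← h4]; ring
            rw [h3]
            refine mul_le_mul_of_nonneg_right ?_ (mul_nonneg ArithmeticFunction.vonMangoldt_nonneg (by positivity))
            have h5 : Real.exp (-(θ₁ * K / r / 3)) = x ^ (-(1 / 3) : ℝ) := by
              rw [hx, ← Real.exp_mul]
              congr 1
              ring
            rw [h5]
            exact Real.rpow_le_rpow_of_nonpos (Real.exp_pos _) hxn.le (by norm_num)
          calc wt (1 + r) k n ≤ (r ^ (k - 1))⁻¹ * (Λ n / n) := w1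
            _ ≤ (r ^ (k - 1))⁻¹ * (Real.exp (-(θ₁ * K / r / 3)) * (Λ n * (n : ℝ) ^ (-(2 / 3) : ℝ))) :=
                mul_le_mul_of_nonneg_left h2 (by positivity)
            _ = _ := by ring
        linarith [hg₁n n, hg₂n n]
      · push_neg at hny
        have hyn : y < n := Nat.lt_of_floor_lt hny
        have hrl : θ₂ * K ≤ r * Real.log n := by
          have : θ₂ * K / r ≤ Real.log n := by
            rw [← Real.log_exp (θ₂ * K / r)]
            exact Real.log_le_log (Real.exp_pos _) hyn.le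
          rw [div_le_iff₀ hr] at this
          linarith
        have h1 : wt (1 + r) k n ≤ g₂ n := by
          simp only [hg₂]
          have h2 : wt (1 + r / 2) 1 n = Λ n * (n : ℝ) ^ (-(1 + r / 2)) := by
            simp [wt]
          rw [h2, hc₂]
          refine w3.trans ?_
          refine mul_le_mul_of_nonneg_right ?_ (mul_nonneg ArithmeticFunction.vonMangoldt_nonneg (by positivity))
          refine mul_le_mul_of_nonneg_left ?_ (by positivity)
          rw [Real.exp_le_exp]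
          linarith
        linarith [hg₁n n, hg₃n n]
  have hsum : Summable (fun n => g₁ n + g₂ n + g₃ n) := (hs₁.add hs₂).add hs₃
  have hB : ‖PP χ k r v - DP χ k r x y v‖ ≤ ∑' n, (g₁ n + g₂ n + g₃ n) := by
    rw [hdiff]
    exact tsum_of_norm_bounded hsum.hasSum hle
  have hT1 : ∑' n, g₁ n ≤ 1 / 12 * ((10 * r) ^ k)⁻¹ := by
    have h1 : ∑' n, g₁ n = c₁ * ∑ n ∈ Finset.Icc 1 ⌊x⌋₊, Λ n / n := by
      rw [tsum_eq_sum (s := Finset.Icc 1 ⌊x⌋₊) (fun n hn => by simp only [hg₁]; rw [if_neg hn]), Finset.mul_sum]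
      exact Finset.sum_congr rfl (fun n hn => by simp only [hg₁]; rw [if_pos hn])
    have hx1 : 1 ≤ x := Real.one_le_exp (by positivity)
    have h2 := hM x hx1
    have h3 : Real.log x = θ₁ * K / r := Real.log_exp _
    rw [h3] at h2
    rw [h1]
    calc c₁ * ∑ n ∈ Finset.Icc 1 ⌊x⌋₊, Λ n / n ≤ c₁ * (C₁ * (1 + θ₁ * K / r)) := mul_le_mul_of_nonneg_left h2 hc₁0
      _ ≤ c₁ * (C * (1 + θ₁ * K / r)) := by gcongr
      _ ≤ _ := TRU_numa C θ₁ r K k hC hθ₁ hr hr1 hk2 hKk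
  have hT2 : ∑' n, g₂ n ≤ 1 / 12 * ((10 * r) ^ k)⁻¹ := by
    have h1 : ∑' n, g₂ n = c₂ * ∑' n, wt (1 + r / 2) 1 n := tsum_mul_left
    rw [h1]
    calc c₂ * ∑' n, wt (1 + r / 2) 1 n ≤ c₂ * (1 / (r / 2) + C₂) :=
          mul_le_mul_of_nonneg_left (hZ (r / 2) (by positivity) (by linarith)) hc₂0
      _ ≤ c₂ * (1 / (r / 2) + C) := by gcongr
      _ ≤ _ := TRU_numb C θ₂ r K k hC hθ₂ hr hr1 hk2 hkK
  have hT3 : ∑' n, g₃ n ≤ 1 / 12 * ((10 * r) ^ k)⁻¹ := by
    have h1 : ∑' n, g₃ n = c₃ * ∑' n, gg n := tsum_mul_left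
    rw [h1]
    calc c₃ * ∑' n, gg n ≤ c₃ * S := mul_le_mul_of_nonneg_left hS2 hc₃0
      _ ≤ _ := TRU_numc S θ₁ r K k hS1 hθ₁0 hr hrr₀ hr1 hk2 hkK
  refine hB.trans ?_
  rw [(hs₁.add hs₂).tsum_add hs₃, hs₁.tsum_add hs₂]
  linarith

end Pool.Agent.TWG
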